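import Pool.Agent.Lib.MP_334071_al.Groups

/-!
MP_334071_al: for every odd multiple `n` of three and every rank at least two, a two generated
subgroup of the free Burnside group which is not the Burnside product of two cyclic groups.
The separating group consists of shift-affine permutations of the functions
`ZMod (3 k) → ZMod n`, `k` a power of three.
-/

set_option autoImplicit false
set_option linter.unusedVariables false

namespace Pool.Agent.MP334071.Gen

universe w1 w2 w3

/-! ### Additive functions on two generated groups -/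

section span
variable {n : ℕ} {G : Type w1} [Group G]

theorem map_one_add (f : G → ZMod n × ZMod n) (hf : ∀ g h, f (g * h) = f g + f h) : f 1 = 0 := by
  have h := hf 1 1
  rw [mul_one] at h
  exact left_eq_add.1 h

theorem map_inv_add (f : G → ZMod n × ZMod n) (hf : ∀ g h, f (g * h) = f g + f h) (g : G) :
    f g⁻¹ = -f g := by
  have h := hf g g⁻¹
  rw [mul_inv_cancel, map_one_add f hf] at h
  exact (neg_eq_of_add_eq_zero_right h.symm).symm

theorem map_pow_add (f : G → ZMod n × ZMod n) (hf : ∀ g h, f (g * h) = f g + f h) (g : G)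
    (k : ℕ) : f (g ^ k) = ((k : ZMod n) * (f g).1, (k : ZMod n) * (f g).2) := by
  induction k with
  | zero => rw [pow_zero, map_one_add f hf]; ext <;> simp
  | succ k ih =>
    rw [pow_succ, hf, ih]
    ext
    · change (k : ZMod n) * (f g).1 + (f g).1 = ((k + 1 : ℕ) : ZMod n) * (f g).1
      push_cast; ring
    · change (k : ZMod n) * (f g).2 + (f g).2 = ((k + 1 : ℕ) : ZMod n) * (f g).2
      push_cast; ring

/-- Values of an additive function on the subgroup generated by two elements. -/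
theorem span2 (f : G → ZMod n × ZMod n) (hf : ∀ g h, f (g * h) = f g + f h) {x y g : G}
    (hg : g ∈ Subgroup.closure ({x, y} : Set G)) :
    ∃ s t : ZMod n, (f g).1 = s * (f x).1 + t * (f y).1 ∧ (f g).2 = s * (f x).2 + t * (f y).2 := by
  induction hg using Subgroup.closure_induction with
  | mem g hg =>
    rcases hg with rfl | hg
    · exact ⟨1, 0, by ring, by ring⟩
    · rw [Set.mem_singleton_iff] at hg
      subst hg
      exact ⟨0, 1, by ring, by ring⟩
  | one => exact ⟨0, 0, by rw [map_one_add f hf]; simp, by rw [map_one_add f hf]; simp⟩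
  | mul g h _ _ ihg ihh =>
    obtain ⟨s, t, h1, h2⟩ := ihg
    obtain ⟨s', t', h3, h4⟩ := ihh
    refine ⟨s + s', t + t', ?_, ?_⟩
    · rw [hf]; change (f g).1 + (f h).1 = _; rw [h1, h3]; ring
    · rw [hf]; change (f g).2 + (f h).2 = _; rw [h2, h4]; ring
  | inv g _ ih =>
    obtain ⟨s, t, h1, h2⟩ := ih
    refine ⟨-s, -t, ?_, ?_⟩
    · rw [map_inv_add f hf]; change -(f g).1 = _; rw [h1]; ring
    · rw [map_inv_add f hf]; change -(f g).2 = _; rw [h2]; ring

/-- The determinant. -/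
def det (v w : ZMod n × ZMod n) : ZMod n := v.1 * w.2 - v.2 * w.1

theorem det_unit (f : G → ZMod n × ZMod n) (hf : ∀ g h, f (g * h) = f g + f h) {x y g h : G}
    (hg : g ∈ Subgroup.closure ({x, y} : Set G)) (hh : h ∈ Subgroup.closure ({x, y} : Set G))
    (h1 : det (f g) (f h) = 1) : IsUnit (det (f x) (f y)) := by
  obtain ⟨s, t, h2, h3⟩ := span2 f hf hg
  obtain ⟨s', t', h4, h5⟩ := span2 f hf hh
  refine IsUnit.of_mul_eq_one (s * t' - t * s') ?_
  rw [← h1]
  unfold det
  rw [h2, h3, h4, h5]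
  ring

/-- A generator whose power `α` is trivial has order divisible by `n` if the determinant of the
values at the two generators is a unit. -/
theorem order_zero (f : G → ZMod n × ZMod n) (hf : ∀ g h, f (g * h) = f g + f h) {p p' : G}
    (hd : IsUnit (det (f p) (f p'))) {α : ℕ} (hα : p ^ α = 1) : (α : ZMod n) = 0 := by
  have h1 := map_pow_add f hf p α
  rw [hα, map_one_add f hf] at h1
  have h2 : (α : ZMod n) * (f p).1 = 0 := (congrArg Prod.fst h1).symm
  have h3 : (α : ZMod n) * (f p).2 = 0 := (congrArg Prod.snd h1).symm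
  have h4 : (α : ZMod n) * det (f p) (f p') = 0 := by
    unfold det
    linear_combination (f p').2 * h2 - (f p').1 * h3
  exact (hd.mul_left_eq_zero).1 h4

theorem det_swap (v w : ZMod n × ZMod n) : det v w = - det w v := by
  unfold det
  ring

end span

/-! ### The obstruction -/

theorem comm_formula {G : Type w1} [Group G] (a b : G) (ha3 : a ^ 3 = 1) (hb3 : b ^ 3 = 1) :
    a * b⁻¹ * (a⁻¹ * b) * (a * b⁻¹)⁻¹ * (a⁻¹ * b)⁻¹ = a * ((a * b)⁻¹) ^ 3 * a⁻¹ := by
  have ha2 : a * a = a⁻¹ := by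
    rw [eq_inv_iff_mul_eq_one, ← pow_three', ha3]
  have hb2 : b * b = b⁻¹ := by
    rw [eq_inv_iff_mul_eq_one, ← pow_three', hb3]
  calc a * b⁻¹ * (a⁻¹ * b) * (a * b⁻¹)⁻¹ * (a⁻¹ * b)⁻¹
      = a * b⁻¹ * a⁻¹ * (b * b) * a⁻¹ * b⁻¹ * a := by group
    _ = a * b⁻¹ * a⁻¹ * b⁻¹ * a⁻¹ * b⁻¹ * a⁻¹ * (a * a) := by rw [hb2]; group
    _ = a * (b⁻¹ * a⁻¹ * (b⁻¹ * a⁻¹ * (b⁻¹ * a⁻¹))) * a⁻¹ := by rw [ha2]; simp only [mul_assoc]
    _ = a * ((a * b)⁻¹) ^ 3 * a⁻¹ := by rw [pow_three, mul_inv_rev]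

/-- The general obstruction: `G` of exponent `n = 3 r`, `a ^ 3 = b ^ 3 = 1`, and the subgroup
generated by `a b⁻¹`, `a⁻¹ b` has an additive map with determinant one; `P` is generated by two
elements of orders `α`, `β` and has the map to the Heisenberg group if `n` divides `α` and `β`. -/
theorem core {n r : ℕ} (hodd : Odd n) (hn : n = 3 * r) {G : Type w1} [Group G] {P : Type w2}
    [Group P] (hG : ∀ g : G, g ^ n = 1) (a b : G) (ha3 : a ^ 3 = 1) (hb3 : b ^ 3 = 1)
    (x y : G) (hx : x = a * b⁻¹) (hy : y = a⁻¹ * b)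
    (F : ↥(Subgroup.closure ({x, y} : Set G)) → ZMod n × ZMod n)
    (hF : ∀ g h, F (g * h) = F g + F h)
    (hdet : det (F ⟨x, Subgroup.subset_closure (Or.inl rfl)⟩)
      (F ⟨y, Subgroup.subset_closure (Or.inr rfl)⟩) = 1)
    (p p' : P) (hgen : ∀ g : P, g ∈ Subgroup.closure ({p, p'} : Set P))
    (hψ : (orderOf p : ZMod n) = 0 → (orderOf p' : ZMod n) = 0 →
      ∃ ψ : P →* Heis n, ψ p = ⟨1, 0, 0⟩ ∧ ψ p' = ⟨0, 1, 0⟩) :
    IsEmpty (↥(Subgroup.closure ({x, y} : Set G)) ≃* P) := by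
  refine ⟨fun e => ?_⟩
  have hcomm : (x * y * x⁻¹ * y⁻¹) ^ r = 1 := by
    rw [hx, hy, comm_formula a b ha3 hb3, conj_pow, ← pow_mul, ← hn, hG, mul_one,
      mul_inv_cancel]
  let H : Subgroup G := Subgroup.closure ({x, y} : Set G)
  have hxH : x ∈ H := Subgroup.subset_closure (Or.inl rfl)
  have hyH : y ∈ H := Subgroup.subset_closure (Or.inr rfl)
  let x' : H := ⟨x, hxH⟩
  let y' : H := ⟨y, hyH⟩
  have hgenH : ∀ g : H, g ∈ Subgroup.closure ({x', y'} : Set H) := by
    intro g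
    have h1 : Subgroup.closure (((↑) : H → G) ⁻¹' ({x, y} : Set G)) = ⊤ :=
      Subgroup.closure_closure_coe_preimage
    have h2 : ((↑) : H → G) ⁻¹' ({x, y} : Set G) = {x', y'} := by
      ext g
      simp only [Set.mem_preimage, Set.mem_insert_iff, Set.mem_singleton_iff, x', y',
        Subtype.ext_iff]
    rw [h2] at h1
    rw [h1]
    trivial
  have hcomm' : (x' * y' * x'⁻¹ * y'⁻¹) ^ r = 1 := Subtype.ext hcomm
  let F' : P → ZMod n × ZMod n := fun g => F (e.symm g)
  have hF' : ∀ g h, F' (g * h) = F' g + F' h := by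
    intro g h
    change F (e.symm (g * h)) = F (e.symm g) + F (e.symm h)
    rw [map_mul, hF]
  have hdet1 : IsUnit (det (F' p) (F' p')) := by
    refine det_unit F' hF' (hgen (e x')) (hgen (e y')) ?_
    change det (F (e.symm (e x'))) (F (e.symm (e y'))) = 1
    rw [MulEquiv.symm_apply_apply, MulEquiv.symm_apply_apply]
    exact hdet
  have hdet1' : IsUnit (det (F' p') (F' p)) := by
    rw [det_swap]; exact hdet1.neg
  have hα := order_zero F' hF' hdet1 (pow_orderOf_eq_one p)
  have hβ := order_zero F' hF' hdet1' (pow_orderOf_eq_one p')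
  obtain ⟨ψ, hψ0, hψ1⟩ := hψ hα hβ
  let K : H → ZMod n × ZMod n := fun g => ((ψ (e g)).p, (ψ (e g)).q)
  have hK : ∀ g h, K (g * h) = K g + K h := by
    intro g h
    change ((ψ (e (g * h))).p, (ψ (e (g * h))).q) = _
    rw [map_mul, map_mul]
    rfl
  have hdet2 : IsUnit (det (K x') (K y')) := by
    refine det_unit K hK (hgenH (e.symm p)) (hgenH (e.symm p')) ?_
    have h0 : K (e.symm p) = (1, 0) := by
      change ((ψ (e (e.symm _))).p, (ψ (e (e.symm _))).q) = _
      rw [MulEquiv.apply_symm_apply, hψ0]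
    have h1 : K (e.symm p') = (0, 1) := by
      change ((ψ (e (e.symm _))).p, (ψ (e (e.symm _))).q) = _
      rw [MulEquiv.apply_symm_apply, hψ1]
    rw [h0, h1]
    unfold det
    ring
  have hc : (ψ (e (x' * y' * x'⁻¹ * y'⁻¹))) ^ r = 1 := by
    rw [← map_pow, ← map_pow, hcomm', map_one, map_one]
  obtain ⟨-, -, e3⟩ := Heis.pow_formula (ψ (e (x' * y' * x'⁻¹ * y'⁻¹))) r
  rw [hc] at e3
  have hp : (ψ (e (x' * y' * x'⁻¹ * y'⁻¹))).p = 0 := by
    simp only [map_mul, map_inv, Heis.mul_p, Heis.inv_p]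
    ring
  have hcc : (ψ (e (x' * y' * x'⁻¹ * y'⁻¹))).c = det (K x') (K y') := by
    simp only [map_mul, map_inv, Heis.mul_p, Heis.inv_p, Heis.inv_q, Heis.mul_c, Heis.inv_c]
    change _ = (ψ (e x')).p * (ψ (e y')).q - (ψ (e x')).q * (ψ (e y')).p
    ring
  rw [hp, hcc, zero_mul, mul_zero, add_zero, Heis.one_c, mul_zero] at e3
  have h2u : IsUnit (2 : ZMod n) := by
    have := (ZMod.isUnit_iff_coprime 2 n).2 (Nat.coprime_two_left.2 hodd)
    exact_mod_cast this
  have h5 : (r : ZMod n) * det (K x') (K y') = 0 := by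
    apply h2u.mul_left_cancel
    rw [← e3, mul_zero]
  have h6 : (r : ZMod n) = 0 := (hdet2.mul_left_eq_zero).1 h5
  rw [ZMod.natCast_eq_zero_iff] at h6
  obtain ⟨t, ht⟩ := hodd
  have h7 := Nat.le_of_dvd (by omega) h6
  omega

/-! ### Shift-affine permutations -/

section shift
variable {n k : ℕ}

/-- Functions whose sum over every coset of the subgroup generated by `k` is zero. -/
def Zs (n k : ℕ) (c : ZMod (3 * k) → ZMod n) : Prop :=
  ∀ j, c j + c (j + k) + c (j + k + k) = 0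

/-- `f` is a shift-affine map with shift `i`. -/
def Sh (n k : ℕ) (i : ZMod (3 * k)) (f : Equiv.Perm (ZMod (3 * k) → ZMod n)) : Prop :=
  ∃ c, Zs n k c ∧ ∀ x j, f x j = x (j + i) + c j

theorem three_k : (k : ZMod (3 * k)) + k + k = 0 := by
  have h : ((3 * k : ℕ) : ZMod (3 * k)) = 0 := ZMod.natCast_self _
  push_cast at h
  linear_combination h

theorem Sh.mul {i i' : ZMod (3 * k)} {f g : Equiv.Perm (ZMod (3 * k) → ZMod n)}
    (hf : Sh n k i f) (hg : Sh n k i' g) : Sh n k (i + i') (f * g) := by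
  obtain ⟨c, hc, hf⟩ := hf
  obtain ⟨c', hc', hg⟩ := hg
  refine ⟨fun j => c' (j + i) + c j, fun j => ?_, fun x j => ?_⟩
  · have h1 := hc j
    have h2 := hc' (j + i)
    have e1 : j + k + i = j + i + k := by ring
    have e2 : j + k + k + i = j + i + k + k := by ring
    simp only [e1, e2]
    linear_combination h1 + h2
  · rw [Equiv.Perm.mul_apply, hf, hg]
    have e1 : j + i + i' = j + (i + i') := by ring
    rw [e1]
    ring

theorem Sh.one : Sh n k 0 1 := ⟨fun _ => 0, fun _ => by ring, fun x j => by simp⟩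

theorem Sh.inv {i : ZMod (3 * k)} {f : Equiv.Perm (ZMod (3 * k) → ZMod n)}
    (hf : Sh n k i f) : Sh n k (-i) f⁻¹ := by
  obtain ⟨c, hc, hf⟩ := hf
  refine ⟨fun j => -c (j + -i), fun j => ?_, fun x j => ?_⟩
  · have h1 := hc (j + -i)
    have e1 : j + k + -i = j + -i + k := by ring
    have e2 : j + k + k + -i = j + -i + k + k := by ring
    simp only [e1, e2]
    linear_combination -h1
  · have h1 := hf (f⁻¹ x) (j + -i)
    have h2 : f (f⁻¹ x) = x := f.apply_symm_apply x
    rw [h2] at h1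
    have e1 : j + -i + i = j := by ring
    rw [e1] at h1
    rw [h1]
    ring

theorem Sh.pow {i : ZMod (3 * k)} {f : Equiv.Perm (ZMod (3 * k) → ZMod n)}
    (hf : Sh n k i f) (m : ℕ) : Sh n k ((m : ZMod (3 * k)) * i) (f ^ m) := by
  induction m with
  | zero => simpa using Sh.one
  | succ m ih =>
    have h := ih.mul hf
    rw [pow_succ]
    have e : ((m + 1 : ℕ) : ZMod (3 * k)) * i = (m : ZMod (3 * k)) * i + i := by
      push_cast; ring
    rw [e]
    exact h

theorem Sh.cube {f : Equiv.Perm (ZMod (3 * k) → ZMod n)} {i : ZMod (3 * k)}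
    (hi : i = k ∨ i = k + k) (hf : Sh n k i f) : f ^ 3 = 1 := by
  obtain ⟨c, hc, hf⟩ := hf
  have h3 := three_k (k := k)
  refine Equiv.ext fun x => funext fun j => ?_
  have h2 : (f ^ 3) x = f (f (f x)) := rfl
  rw [h2, hf, hf, hf]
  change _ = x j
  have h1 := hc j
  rcases hi with rfl | rfl
  · have e1 : j + (k : ZMod (3 * k)) + k + k = j := by linear_combination h3
    rw [e1]
    linear_combination h1
  · have e1 : j + ((k : ZMod (3 * k)) + k) + (k + k) + (k + k) = j := by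
      linear_combination 2 * h3
    have e2 : j + ((k : ZMod (3 * k)) + k) + (k + k) = j + k := by linear_combination h3
    have e3 : j + ((k : ZMod (3 * k)) + k) = j + k + k := by ring
    rw [e1, e2, e3]
    linear_combination h1

/-- A nonzero shift has a multiple `k` or `2 k` by a divisor of `k`. -/
theorem exists_mult {l : ℕ} (i : ZMod (3 * 3 ^ l)) (hi : i ≠ 0) :
    ∃ t : ℕ, t ∣ 3 ^ l ∧ ((t : ZMod (3 * 3 ^ l)) * i = ((3 ^ l : ℕ) : ZMod (3 * 3 ^ l)) ∨
      (t : ZMod (3 * 3 ^ l)) * i = ((3 ^ l : ℕ) : ZMod (3 * 3 ^ l)) + ((3 ^ l : ℕ) :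
        ZMod (3 * 3 ^ l))) := by
  haveI : NeZero (3 * 3 ^ l) := ⟨by positivity⟩
  have hv : (i.val : ZMod (3 * 3 ^ l)) = i := ZMod.natCast_zmod_val i
  have h0 : i.val ≠ 0 := by
    intro h
    rw [h] at hv
    exact hi (by rw [← hv]; simp)
  have hlt : i.val < 3 * 3 ^ l := ZMod.val_lt i
  obtain ⟨j, a', ha', hja⟩ := Nat.exists_eq_pow_mul_and_not_dvd h0 3 (by norm_num)
  have ha0 : 0 < a' := by
    rcases Nat.eq_zero_or_pos a' with h | h
    · exact absurd (h ▸ dvd_zero 3) ha'
    · exact h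
  have hj : j ≤ l := by
    by_contra hlt'
    have h1 : 3 ^ (l + 1) ≤ 3 ^ j := Nat.pow_le_pow_right (by norm_num) (by omega)
    have h2 : 3 ^ j ≤ 3 ^ j * a' := Nat.le_mul_of_pos_right _ ha0
    have h3 : 3 ^ (l + 1) = 3 * 3 ^ l := by rw [pow_succ]; ring
    omega
  refine ⟨3 ^ (l - j), pow_dvd_pow 3 (Nat.sub_le l j), ?_⟩
  have h1 : 3 ^ (l - j) * i.val = 3 ^ l * a' := by
    rw [hja, ← mul_assoc, ← pow_add, Nat.sub_add_cancel hj]
  have h2 : ((3 ^ (l - j) : ℕ) : ZMod (3 * 3 ^ l)) * i =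
      ((3 ^ l : ℕ) : ZMod (3 * 3 ^ l)) * (a' : ZMod (3 * 3 ^ l)) := by
    rw [← Nat.cast_mul, ← h1, Nat.cast_mul, hv]
  rw [h2]
  have h3 := three_k (k := 3 ^ l)
  have h4 : a' = 3 * (a' / 3) + a' % 3 := (Nat.div_add_mod a' 3).symm
  have h5 : a' % 3 = 1 ∨ a' % 3 = 2 := by omega
  rcases h5 with h5 | h5
  · left
    rw [h4, h5]
    push_cast at h3 ⊢
    linear_combination ((a' / 3 : ℕ) : ZMod (3 * 3 ^ l)) * h3
  · right
    rw [h4, h5]
    push_cast at h3 ⊢
    linear_combination ((a' / 3 : ℕ) : ZMod (3 * 3 ^ l)) * h3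

/-- All shift-affine permutations have exponent `n` if `3 k ∣ n`, `k` a power of three. -/
theorem Sh.exponent {l m : ℕ} (hn : n = 3 * 3 ^ l * m) {i : ZMod (3 * 3 ^ l)}
    {f : Equiv.Perm (ZMod (3 * 3 ^ l) → ZMod n)} (hf : Sh n (3 ^ l) i f) : f ^ n = 1 := by
  by_cases hi : i = 0
  · subst hi
    obtain ⟨c, hc, hf⟩ := hf
    have h1 : ∀ (t : ℕ) (x : ZMod (3 * 3 ^ l) → ZMod n) (j : ZMod (3 * 3 ^ l)),
        (f ^ t) x j = x j + (t : ZMod n) * c j := by
      intro t
      induction t with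
      | zero => intro x j; simp
      | succ t ih =>
        intro x j
        rw [pow_succ', Equiv.Perm.mul_apply, hf, add_zero, ih]
        push_cast
        ring
    refine Equiv.ext fun x => funext fun j => ?_
    rw [h1]
    simp
  · obtain ⟨t, ht, hti⟩ := exists_mult i hi
    have h1 : (f ^ t) ^ 3 = 1 := Sh.cube hti (hf.pow t)
    obtain ⟨s, hs⟩ := ht
    have h2 : n = t * 3 * (s * m) := by rw [hn, hs]; ring
    calc f ^ n = f ^ (t * 3 * (s * m)) := congrArg (f ^ ·) h2
      _ = ((f ^ t) ^ 3) ^ (s * m) := by rw [pow_mul, pow_mul f t 3]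
      _ = 1 := by rw [h1, one_pow]

/-- The translation part of the second generator. -/
def cc (n k : ℕ) (j : ZMod (3 * k)) : ZMod n :=
  if j.val = 0 then 1 else if j.val = k then -1 else 0

theorem cc_cast (n : ℕ) {k : ℕ} (hk : 0 < k) (b : ℕ) : cc n k (b : ZMod (3 * k)) =
    if b % (3 * k) = 0 then 1 else if b % (3 * k) = k then -1 else 0 := by
  unfold cc
  rw [ZMod.val_natCast]

theorem cc_lt (n : ℕ) {k : ℕ} (hk : 0 < k) {b : ℕ} (hb : b < 3 * k) :
    cc n k (b : ZMod (3 * k)) = if b = 0 then 1 else if b = k then -1 else 0 := by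
  rw [cc_cast n hk, Nat.mod_eq_of_lt hb]

theorem cc_lt' (n : ℕ) {k : ℕ} (hk : 0 < k) {b : ℕ} (hb : b < 3 * k) :
    cc n k ((b + 3 * k : ℕ) : ZMod (3 * k)) = if b = 0 then 1 else if b = k then -1 else 0 := by
  rw [cc_cast n hk, Nat.add_mod_right, Nat.mod_eq_of_lt hb]

theorem cc_Zs (n : ℕ) {k : ℕ} (hk : 0 < k) : Zs n k (cc n k) := by
  haveI : NeZero (3 * k) := ⟨by omega⟩
  intro j
  have hv : (j.val : ZMod (3 * k)) = j := ZMod.natCast_zmod_val j
  have hlt : j.val < 3 * k := ZMod.val_lt j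
  rw [← hv]
  generalize j.val = a at hlt
  have e1 : (a : ZMod (3 * k)) + k = ((a + k : ℕ) : ZMod (3 * k)) := by push_cast; ring
  have e2 : (a : ZMod (3 * k)) + k + k = ((a + k + k : ℕ) : ZMod (3 * k)) := by push_cast; ring
  rw [e2, e1, cc_lt n hk hlt]
  rcases lt_or_ge a k with h1 | h1
  · rw [cc_lt n hk (b := a + k) (by omega), cc_lt n hk (b := a + k + k) (by omega)]
    by_cases h0 : a = 0
    · subst h0
      have : ¬ k = 0 := by omega
      simp [this]
    · have h2 : ¬ a = k := by omega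
      have h3 : ¬ (a = 0 ∧ k = 0) := by omega
      have h4 : ¬ a + k = k := by omega
      have h5 : ¬ a + k + k = 0 := by omega
      have h6 : ¬ a + k + k = k := by omega
      have h7 : ¬ a + k = 0 := by omega
      simp only [h0, h2, h4, h5, h6, h7, if_false, add_zero]
  · rcases lt_or_ge a (2 * k) with h2 | h2
    · have e3 : a + k + k = (a - k) + 3 * k := by omega
      rw [cc_lt n hk (b := a + k) (by omega), e3, cc_lt' n hk (b := a - k) (by omega)]
      have h3 : ¬ a = 0 := by omega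
      have h4 : ¬ a + k = 0 := by omega
      have h5 : ¬ a + k = k := by omega
      have h6 : ¬ a - k = k := by omega
      by_cases h7 : a = k
      · have h8 : a - k = 0 := by omega
        rw [if_neg h3, if_pos h7, if_neg h4, if_neg h5, if_pos h8]
        ring
      · have h8 : ¬ a - k = 0 := by omega
        simp only [h3, h4, h5, h6, h7, h8, if_false, add_zero]
    · have e3 : a + k + k = (a - k) + 3 * k := by omega
      have e4 : a + k = (a - 2 * k) + 3 * k := by omega
      rw [e3, e4, cc_lt' n hk (b := a - k) (by omega), cc_lt' n hk (b := a - 2 * k) (by omega)]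
      have h3 : ¬ a = 0 := by omega
      have h4 : ¬ a = k := by omega
      have h5 : ¬ a - k = 0 := by omega
      have h6 : ¬ a - 2 * k = k := by omega
      by_cases h7 : a = 2 * k
      · have h8 : a - 2 * k = 0 := by omega
        have h9 : a - k = k := by omega
        rw [if_neg h3, if_neg h4, if_pos h8, if_neg h5, if_pos h9]
        ring
      · have h8 : ¬ a - 2 * k = 0 := by omega
        have h9 : ¬ a - k = k := by omega
        simp only [h3, h4, h5, h6, h8, h9, if_false, add_zero]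

/-- `x ↦ x (· + 1)`. -/
def A1 (n k : ℕ) : Equiv.Perm (ZMod (3 * k) → ZMod n) where
  toFun x j := x (j + 1)
  invFun x j := x (j - 1)
  left_inv x := by funext j; simp
  right_inv x := by funext j; simp

/-- `x ↦ x (· + 1) + cc`. -/
def B1 (n k : ℕ) : Equiv.Perm (ZMod (3 * k) → ZMod n) where
  toFun x j := x (j + 1) + cc n k j
  invFun x j := x (j - 1) - cc n k (j - 1)
  left_inv x := by funext j; simp
  right_inv x := by funext j; simp

theorem A1_Sh : Sh n k 1 (A1 n k) := ⟨fun _ => 0, fun _ => by ring, fun x j => by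
  rw [add_zero]; rfl⟩

theorem B1_Sh (hk : 0 < k) : Sh n k 1 (B1 n k) := ⟨cc n k, cc_Zs n hk, fun x j => rfl⟩

theorem A1_pow (t : ℕ) (x : ZMod (3 * k) → ZMod n) (j : ZMod (3 * k)) :
    (A1 n k ^ t) x j = x (j + t) := by
  induction t generalizing j with
  | zero => simp
  | succ t ih =>
    rw [pow_succ', Equiv.Perm.mul_apply]
    change ((A1 n k ^ t) x) (j + 1) = _
    rw [ih]
    congr 1
    push_cast
    ring

theorem B1_pow (t : ℕ) (x : ZMod (3 * k) → ZMod n) (j : ZMod (3 * k)) :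
    (B1 n k ^ t) x j = x (j + t) + ∑ m ∈ Finset.range t, cc n k (j + m) := by
  induction t generalizing j with
  | zero => simp
  | succ t ih =>
    rw [pow_succ', Equiv.Perm.mul_apply]
    change ((B1 n k ^ t) x) (j + 1) + cc n k j = _
    rw [ih, Finset.sum_range_succ']
    have e : j + 1 + (t : ZMod (3 * k)) = j + ((t + 1 : ℕ) : ZMod (3 * k)) := by push_cast; ring
    rw [e, add_assoc]
    congr 1
    congr 1
    · refine Finset.sum_congr rfl fun m _ => ?_
      congr 1
      push_cast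
      ring
    · simp

/-- The translation part of `B1 ^ k`. -/
def c0 (n k : ℕ) (j : ZMod (3 * k)) : ZMod n := ∑ m ∈ Finset.range k, cc n k (j + m)

theorem c0_zero (hk : 0 < k) : c0 n k 0 = 1 := by
  unfold c0
  rw [Finset.sum_eq_single 0]
  · have := cc_lt n hk (b := 0) (by omega)
    simpa using this
  · intro m hm hm0
    rw [Finset.mem_range] at hm
    rw [zero_add, cc_lt n hk (b := m) (by omega), if_neg hm0, if_neg (by omega)]
  · intro h
    exact absurd (Finset.mem_range.2 hk) h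

theorem c0_k (hk : 0 < k) : c0 n k k = -1 := by
  unfold c0
  rw [Finset.sum_eq_single 0]
  · rw [Nat.cast_zero, add_zero, cc_lt n hk (b := k) (by omega), if_neg (by omega), if_pos rfl]
  · intro m hm hm0
    rw [Finset.mem_range] at hm
    rw [← Nat.cast_add, cc_lt n hk (b := k + m) (by omega), if_neg (by omega), if_neg (by omega)]
  · intro h
    exact absurd (Finset.mem_range.2 hk) h

theorem c0_neg_k (hk : 0 < k) : c0 n k (0 - k) = 0 := by
  unfold c0
  refine Finset.sum_eq_zero fun m hm => ?_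
  rw [Finset.mem_range] at hm
  have h3 := three_k (k := k)
  have e : (0 - (k : ZMod (3 * k))) + m = ((2 * k + m : ℕ) : ZMod (3 * k)) := by
    push_cast
    linear_combination -h3
  rw [e, cc_lt n hk (b := 2 * k + m) (by omega), if_neg (by omega), if_neg (by omega)]

end shift

/-! ### The free Burnside group -/

/-- The free Burnside group. -/
abbrev FB (ι : Type w1) (n : ℕ) : Type w1 :=
  FreeGroup ι ⧸ Subgroup.normalClosure (Set.range fun w : FreeGroup ι => w ^ n)

/-- The Burnside product. -/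
abbrev BP (n : ℕ) (A : Type w2) (C : Type w3) [Group A] [Group C] : Type (max w2 w3) :=
  Monoid.Coprod A C ⧸ Subgroup.normalClosure (Set.range fun g : Monoid.Coprod A C => g ^ n)

theorem FB_pow {ι : Type w1} {n : ℕ} (g : FB ι n) : g ^ n = 1 := by
  induction g using QuotientGroup.induction_on with
  | H w =>
    rw [← QuotientGroup.mk_pow, QuotientGroup.eq_one_iff]
    exact Subgroup.subset_normalClosure ⟨w, rfl⟩

/-- The homomorphism to the shift-affine permutations. -/
theorem exists_shift {n r : ℕ} (hn : n = 3 * r) (hr0 : r ≠ 0) {ι : Type w1} {i j : ι}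
    (hij : i ≠ j) : ∃ (k : ℕ) (_ : 0 < k) (ρ : FB ι n →* Equiv.Perm (ZMod (3 * k) → ZMod n)),
      ρ (QuotientGroup.mk (FreeGroup.of i)) ^ r = A1 n k ^ k ∧
      ρ (QuotientGroup.mk (FreeGroup.of j)) ^ r = B1 n k ^ k := by
  classical
  obtain ⟨l, m, hm, hlm⟩ := Nat.exists_eq_pow_mul_and_not_dvd hr0 3 (by norm_num)
  have hk : 0 < 3 ^ l := by positivity
  have hcop : Nat.Coprime m (3 * 3 ^ l) := by
    have h3 : Nat.Coprime m 3 := ((Nat.Prime.coprime_iff_not_dvd Nat.prime_three).2 hm).symm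
    exact Nat.Coprime.mul_right h3 (Nat.Coprime.pow_right l h3)
  obtain ⟨e, w, he⟩ : ∃ e w : ℕ, m * e = 1 + 3 * 3 ^ l * w := by
    obtain ⟨e, -, he⟩ := Nat.exists_mul_mod_eq_one_of_coprime hcop
      (by have : 1 ≤ 3 ^ l := hk; omega)
    refine ⟨e, m * e / (3 * 3 ^ l), ?_⟩
    have := Nat.div_add_mod (m * e) (3 * 3 ^ l)
    rw [he] at this
    omega
  have hA : A1 n (3 ^ l) ^ (3 * 3 ^ l) = 1 := by
    refine Equiv.ext fun x => funext fun y => ?_
    rw [A1_pow, ZMod.natCast_self, add_zero]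
    rfl
  have hB : B1 n (3 ^ l) ^ (3 * 3 ^ l) = 1 := by
    have h1 := (B1_Sh (n := n) hk).pow (3 ^ l)
    rw [mul_one] at h1
    have h2 := Sh.cube (Or.inl rfl) h1
    rw [← pow_mul] at h2
    exact (congrArg (B1 n (3 ^ l) ^ ·) (mul_comm 3 (3 ^ l))).trans h2
  have hpow : ∀ f : Equiv.Perm (ZMod (3 * 3 ^ l) → ZMod n), f ^ (3 * 3 ^ l) = 1 →
      (f ^ e) ^ r = f ^ (3 ^ l) := by
    intro f hf
    have h1 : e * r = 3 ^ l + 3 * 3 ^ l * (3 ^ l * w) := by
      rw [hlm]
      calc e * (3 ^ l * m) = 3 ^ l * (m * e) := by ring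
        _ = 3 ^ l + 3 * 3 ^ l * (3 ^ l * w) := by rw [he]; ring
    rw [← pow_mul, h1, pow_add, pow_mul f (3 * 3 ^ l), hf, one_pow, mul_one]
  let U := A1 n (3 ^ l) ^ e
  let V := B1 n (3 ^ l) ^ e
  let fn : ι → Equiv.Perm (ZMod (3 * 3 ^ l) → ZMod n) :=
    fun t => if t = i then U else if t = j then V else 1
  have hgood : ∀ w : FreeGroup ι, ∃ s, Sh n (3 ^ l) s (FreeGroup.lift fn w) := by
    intro w
    induction w using FreeGroup.induction_on with
    | C1 => rw [map_one]; exact ⟨0, Sh.one⟩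
    | of t =>
      rw [FreeGroup.lift_apply_of]
      change ∃ s, Sh n (3 ^ l) s (if t = i then U else if t = j then V else 1)
      split_ifs
      · exact ⟨_, A1_Sh.pow e⟩
      · exact ⟨_, (B1_Sh hk).pow e⟩
      · exact ⟨0, Sh.one⟩
    | inv_of t ih =>
      rw [map_inv]
      obtain ⟨s, hs⟩ := ih
      exact ⟨_, hs.inv⟩
    | mul v w ihv ihw =>
      rw [map_mul]
      obtain ⟨s, hs⟩ := ihv
      obtain ⟨s', hs'⟩ := ihw
      exact ⟨_, hs.mul hs'⟩
  have hn' : n = 3 * 3 ^ l * m := by rw [hn, hlm]; ring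
  have hker : Subgroup.normalClosure (Set.range fun w : FreeGroup ι => w ^ n) ≤
      (FreeGroup.lift fn).ker := by
    refine Subgroup.normalClosure_le_normal ?_
    rintro _ ⟨w, rfl⟩
    change FreeGroup.lift fn (w ^ n) = 1
    rw [map_pow]
    obtain ⟨s, hs⟩ := hgood w
    exact hs.exponent hn'
  refine ⟨3 ^ l, hk, QuotientGroup.lift _ (FreeGroup.lift fn) hker, ?_, ?_⟩
  · rw [QuotientGroup.lift_mk, FreeGroup.lift_apply_of]
    change (if i = i then U else if i = j then V else 1) ^ r = _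
    rw [if_pos rfl]
    exact hpow _ hA
  · rw [QuotientGroup.lift_mk, FreeGroup.lift_apply_of]
    change (if j = i then U else if j = j then V else 1) ^ r = _
    rw [if_neg (Ne.symm hij), if_pos rfl]
    exact hpow _ hB

/-- Translations. -/
def Tr {n k : ℕ} (f : Equiv.Perm (ZMod (3 * k) → ZMod n)) : Prop :=
  ∀ x j, f x j = x j + f 0 j

theorem Tr.mul {n k : ℕ} {f g : Equiv.Perm (ZMod (3 * k) → ZMod n)} (hf : Tr f) (hg : Tr g) :
    Tr (f * g) := by
  intro x j
  rw [Equiv.Perm.mul_apply, Equiv.Perm.mul_apply, hf (g x), hg x, hf (g 0)]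
  ring

theorem Tr.mul_zero {n k : ℕ} {f g : Equiv.Perm (ZMod (3 * k) → ZMod n)} (hf : Tr f) (j) :
    (f * g) 0 j = f 0 j + g 0 j := by
  rw [Equiv.Perm.mul_apply, hf (g 0)]
  ring

theorem Tr.inv {n k : ℕ} {f : Equiv.Perm (ZMod (3 * k) → ZMod n)} (hf : Tr f) : Tr f⁻¹ := by
  intro x j
  have h1 := hf (f⁻¹ x) j
  have h2 := hf (f⁻¹ 0) j
  have h3 : ∀ z, f (f⁻¹ z) = z := fun z => f.apply_symm_apply z
  rw [h3] at h1 h2
  rw [h1]
  have h4 : (f⁻¹ 0) j = - f 0 j := by
    rw [Pi.zero_apply] at h2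
    linear_combination -h2
  rw [h4]
  ring

theorem tr_x {n k : ℕ} (x : ZMod (3 * k) → ZMod n) (j : ZMod (3 * k)) :
    (A1 n k ^ k * (B1 n k ^ k)⁻¹) x j = x j - c0 n k j := by
  have h1 : (B1 n k ^ k) ((B1 n k ^ k)⁻¹ x) j = x j :=
    congrFun ((B1 n k ^ k).apply_symm_apply x) j
  rw [B1_pow] at h1
  rw [Equiv.Perm.mul_apply, A1_pow]
  unfold c0
  rw [← h1]
  ring

theorem tr_y {n k : ℕ} (x : ZMod (3 * k) → ZMod n) (j : ZMod (3 * k)) :
    ((A1 n k ^ k)⁻¹ * B1 n k ^ k) x j = x j + c0 n k (j - k) := by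
  have h1 : (A1 n k ^ k) ((A1 n k ^ k)⁻¹ ((B1 n k ^ k) x)) (j - k) = ((B1 n k ^ k) x) (j - k) :=
    congrFun ((A1 n k ^ k).apply_symm_apply _) (j - k)
  rw [A1_pow, B1_pow] at h1
  rw [Equiv.Perm.mul_apply]
  have e : j - (k : ZMod (3 * k)) + k = j := by ring
  rw [e] at h1
  exact h1

/-- The main theorem of the module. -/
theorem main {n r : ℕ} (hodd : Odd n) (hn : n = 3 * r) {ι : Type w1} {i j : ι} (hij : i ≠ j)
    (u v : FB ι n) (hu : u = QuotientGroup.mk (FreeGroup.of i))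
    (hv : v = QuotientGroup.mk (FreeGroup.of j)) (A : Type w2) (C : Type w3) [Group A] [Group C]
    [IsCyclic A] [IsCyclic C] :
    IsEmpty (↥(Subgroup.closure ({u ^ r * (v ^ r)⁻¹, (u ^ r)⁻¹ * v ^ r} : Set (FB ι n))) ≃*
      BP n A C) := by
  have hr0 : r ≠ 0 := by
    rintro rfl
    rw [hn] at hodd
    simp at hodd
  obtain ⟨k, hk, ρ, hρu, hρv⟩ := exists_shift hn hr0 hij
  rw [← hu] at hρu
  rw [← hv] at hρv
  have ha3 : (u ^ r) ^ 3 = 1 := by
    rw [← pow_mul, mul_comm, ← hn]; exact FB_pow u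
  have hb3 : (v ^ r) ^ 3 = 1 := by
    rw [← pow_mul, mul_comm, ← hn]; exact FB_pow v
  have hρx : ρ (u ^ r * (v ^ r)⁻¹) = A1 n k ^ k * (B1 n k ^ k)⁻¹ := by
    rw [map_mul, map_inv, map_pow, map_pow, hρu, hρv]
  have hρy : ρ ((u ^ r)⁻¹ * v ^ r) = (A1 n k ^ k)⁻¹ * B1 n k ^ k := by
    rw [map_mul, map_inv, map_pow, map_pow, hρu, hρv]
  have hx0 : ∀ j, (A1 n k ^ k * (B1 n k ^ k)⁻¹) 0 j = - c0 n k j := by
    intro j
    rw [tr_x, Pi.zero_apply, zero_sub]
  have hy0 : ∀ j, ((A1 n k ^ k)⁻¹ * B1 n k ^ k) 0 j = c0 n k (j - k) := by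
    intro j
    rw [tr_y, Pi.zero_apply, zero_add]
  have htr : ∀ g ∈ Subgroup.closure ({u ^ r * (v ^ r)⁻¹, (u ^ r)⁻¹ * v ^ r} : Set (FB ι n)),
      Tr (ρ g) := by
    intro g hg
    induction hg using Subgroup.closure_induction with
    | mem g hg =>
      rcases hg with rfl | hg
      · rw [hρx]
        intro x j
        rw [hx0, tr_x]
        ring
      · rw [Set.mem_singleton_iff] at hg
        rw [hg, hρy]
        intro x j
        rw [hy0, tr_y]
    | one => rw [map_one]; intro x j; simp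
    | mul g h _ _ ihg ihh => rw [map_mul]; exact ihg.mul ihh
    | inv g _ ih => rw [map_inv]; exact ih.inv
  let F : ↥(Subgroup.closure ({u ^ r * (v ^ r)⁻¹, (u ^ r)⁻¹ * v ^ r} : Set (FB ι n))) →
      ZMod n × ZMod n := fun g => (ρ (g : FB ι n) 0 k, ρ (g : FB ι n) 0 0)
  have hF : ∀ g h, F (g * h) = F g + F h := by
    intro g h
    have h1 : ∀ t, ρ ((g : FB ι n) * (h : FB ι n)) 0 t =
        ρ (g : FB ι n) 0 t + ρ (h : FB ι n) 0 t := by
      intro t
      rw [map_mul]
      exact (htr g g.2).mul_zero t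
    exact Prod.ext (h1 k) (h1 0)
  obtain ⟨a0, ha0⟩ := IsCyclic.exists_generator (α := A)
  obtain ⟨b0, hb0⟩ := IsCyclic.exists_generator (α := C)
  let p : BP n A C := QuotientGroup.mk (Monoid.Coprod.inl a0)
  let p' : BP n A C := QuotientGroup.mk (Monoid.Coprod.inr b0)
  refine core hodd hn FB_pow (u ^ r) (v ^ r) ha3 hb3 _ _ rfl rfl F hF ?_ p p' ?_ ?_
  · change det (ρ (u ^ r * (v ^ r)⁻¹) 0 k, ρ (u ^ r * (v ^ r)⁻¹) 0 0)
      (ρ ((u ^ r)⁻¹ * v ^ r) 0 k, ρ ((u ^ r)⁻¹ * v ^ r) 0 0) = 1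
    rw [hρx, hρy, hx0, hx0, hy0, hy0, c0_k hk, c0_zero hk, sub_self, c0_zero hk, c0_neg_k hk]
    unfold det
    ring
  · intro g
    induction g using QuotientGroup.induction_on with
    | H w =>
      induction w using Monoid.Coprod.induction_on with
      | inl m =>
        obtain ⟨z, hz⟩ := Subgroup.mem_zpowers_iff.1 (ha0 m)
        have hm : (QuotientGroup.mk (Monoid.Coprod.inl m) : BP n A C) = p ^ z := by
          rw [← hz, map_zpow, QuotientGroup.mk_zpow]
        have hp : p ∈ Subgroup.closure ({p, p'} : Set (BP n A C)) :=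
          Subgroup.subset_closure (Or.inl rfl)
        have hz' : p ^ z ∈ Subgroup.closure ({p, p'} : Set (BP n A C)) := zpow_mem hp z
        rw [hm]
        exact hz'
      | inr m =>
        obtain ⟨z, hz⟩ := Subgroup.mem_zpowers_iff.1 (hb0 m)
        have hm : (QuotientGroup.mk (Monoid.Coprod.inr m) : BP n A C) = p' ^ z := by
          rw [← hz, map_zpow, QuotientGroup.mk_zpow]
        have hp : p' ∈ Subgroup.closure ({p, p'} : Set (BP n A C)) :=
          Subgroup.subset_closure (Or.inr rfl)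
        have hz' : p' ^ z ∈ Subgroup.closure ({p, p'} : Set (BP n A C)) := zpow_mem hp z
        rw [hm]
        exact hz'
      | mul x y hx hy => exact Subgroup.mul_mem _ hx hy
  · intro h1 h2
    rw [ZMod.natCast_eq_zero_iff] at h1 h2
    have h3 : n ∣ orderOf a0 := h1.trans (orderOf_dvd_of_pow_eq_one (by
      change (QuotientGroup.mk (Monoid.Coprod.inl a0) : BP n A C) ^ orderOf a0 = 1
      rw [← QuotientGroup.mk_pow, ← map_pow, pow_orderOf_eq_one, map_one]
      rfl))
    have h4 : n ∣ orderOf b0 := h2.trans (orderOf_dvd_of_pow_eq_one (by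
      change (QuotientGroup.mk (Monoid.Coprod.inr b0) : BP n A C) ^ orderOf b0 = 1
      rw [← QuotientGroup.mk_pow, ← map_pow, pow_orderOf_eq_one, map_one]
      rfl))
    have h5 : orderOf (⟨1, 0, 0⟩ : Heis n) ∣ orderOf a0 :=
      (orderOf_dvd_of_pow_eq_one (Heis.pow_n hodd _)).trans h3
    have h6 : orderOf (⟨0, 1, 0⟩ : Heis n) ∣ orderOf b0 :=
      (orderOf_dvd_of_pow_eq_one (Heis.pow_n hodd _)).trans h4
    let φ : Monoid.Coprod A C →* Heis n :=
      Monoid.Coprod.lift (monoidHomOfForallMemZpowers ha0 h5) (monoidHomOfForallMemZpowers hb0 h6)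
    have hker : Subgroup.normalClosure (Set.range fun g : Monoid.Coprod A C => g ^ n) ≤
        φ.ker := by
      refine Subgroup.normalClosure_le_normal ?_
      rintro _ ⟨w, rfl⟩
      change φ (w ^ n) = 1
      rw [map_pow]
      exact Heis.pow_n hodd _
    refine ⟨QuotientGroup.lift _ φ hker, ?_, ?_⟩
    · change QuotientGroup.lift _ φ hker (QuotientGroup.mk (Monoid.Coprod.inl a0)) = _
      rw [QuotientGroup.lift_mk, Monoid.Coprod.lift_apply_inl, monoidHomOfForallMemZpowers_apply_gen]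
    · change QuotientGroup.lift _ φ hker (QuotientGroup.mk (Monoid.Coprod.inr b0)) = _
      rw [QuotientGroup.lift_mk, Monoid.Coprod.lift_apply_inr, monoidHomOfForallMemZpowers_apply_gen]

end Pool.Agent.MP334071.Gen
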