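import Mathlib

/-!
MP_334071_al: two finite groups of exponent `n` used to separate a subgroup of the free Burnside
group `B(2, n)`, `3 ∣ n`, from all Burnside products of two cyclic groups.
-/

set_option autoImplicit false

namespace Pool.Agent.MP334071

/-! ### The affine group `(ℤ/n)² ⋊ C₃`, as permutations -/

/-- Rotation of order three. -/
def tau (n : ℕ) (p : ZMod n × ZMod n) : ZMod n × ZMod n := (-p.2, p.1 - p.2)

/-- Its square. -/
def tau2 (n : ℕ) (p : ZMod n × ZMod n) : ZMod n × ZMod n := (p.2 - p.1, -p.1)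

variable (n : ℕ)

theorem tau_tau (p : ZMod n × ZMod n) : tau n (tau n p) = tau2 n p := by
  ext
  · change -(p.1 - p.2) = p.2 - p.1
    ring
  · change -p.2 - (p.1 - p.2) = -p.1
    ring

theorem tau_tau2 (p : ZMod n × ZMod n) : tau n (tau2 n p) = p := by
  ext
  · change - -p.1 = p.1
    ring
  · change p.2 - p.1 - -p.1 = p.2
    ring

theorem tau2_tau (p : ZMod n × ZMod n) : tau2 n (tau n p) = p := by
  ext
  · change p.1 - p.2 - -p.2 = p.1
    ring
  · change - -p.2 = p.2
    ring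

theorem tau2_tau2 (p : ZMod n × ZMod n) : tau2 n (tau2 n p) = tau n p := by
  ext
  · change -p.1 - (p.2 - p.1) = -p.2
    ring
  · change -(p.2 - p.1) = p.1 - p.2
    ring

theorem tau_add (p q : ZMod n × ZMod n) : tau n (p + q) = tau n p + tau n q := by
  ext <;> simp [tau] <;> ring

theorem tau2_add (p q : ZMod n × ZMod n) : tau2 n (p + q) = tau2 n p + tau2 n q := by
  ext <;> simp [tau2] <;> ring

theorem tau_sum (p : ZMod n × ZMod n) : p + tau n p + tau2 n p = 0 := by
  ext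
  · change p.1 + -p.2 + (p.2 - p.1) = 0
    ring
  · change p.2 + (p.1 - p.2) + -p.1 = 0
    ring

/-- `p ↦ τ p`. -/
def pa : Equiv.Perm (ZMod n × ZMod n) :=
  ⟨tau n, tau2 n, fun p => tau2_tau n p, fun p => tau_tau2 n p⟩

/-- `p ↦ τ p + e₁`. -/
def pb : Equiv.Perm (ZMod n × ZMod n) :=
  ⟨fun p => tau n p + (1, 0), fun p => tau2 n (p + (-1, 0)), fun p => by
    have h : tau n p + (1, 0) + (-1, 0) = tau n p := by ext <;> simp
    change tau2 n (tau n p + (1, 0) + (-1, 0)) = p
    rw [h, tau2_tau], fun p => by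
    change tau n (tau2 n (p + (-1, 0))) + (1, 0) = p
    rw [tau_tau2]
    ext <;> simp⟩

/-- The three types of permutations. -/
def Good (f : Equiv.Perm (ZMod n × ZMod n)) : Prop :=
  (∃ v, ∀ p, f p = p + v) ∨ (∃ v, ∀ p, f p = tau n p + v) ∨ (∃ v, ∀ p, f p = tau2 n p + v)

theorem Good.mul {f g : Equiv.Perm (ZMod n × ZMod n)} (hf : Good n f) (hg : Good n g) :
    Good n (f * g) := by
  rcases hf with ⟨v, hf⟩ | ⟨v, hf⟩ | ⟨v, hf⟩ <;> rcases hg with ⟨w, hg⟩ | ⟨w, hg⟩ | ⟨w, hg⟩
  · exact Or.inl ⟨w + v, fun p => by rw [Equiv.Perm.mul_apply, hg, hf, add_assoc]⟩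
  · exact Or.inr (Or.inl ⟨w + v, fun p => by rw [Equiv.Perm.mul_apply, hg, hf, add_assoc]⟩)
  · exact Or.inr (Or.inr ⟨w + v, fun p => by rw [Equiv.Perm.mul_apply, hg, hf, add_assoc]⟩)
  · exact Or.inr (Or.inl ⟨tau n w + v, fun p => by
      rw [Equiv.Perm.mul_apply, hg, hf, tau_add, add_assoc]⟩)
  · exact Or.inr (Or.inr ⟨tau n w + v, fun p => by
      rw [Equiv.Perm.mul_apply, hg, hf, tau_add, tau_tau, add_assoc]⟩)
  · exact Or.inl ⟨tau n w + v, fun p => by
      rw [Equiv.Perm.mul_apply, hg, hf, tau_add, tau_tau2, add_assoc]⟩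
  · exact Or.inr (Or.inr ⟨tau2 n w + v, fun p => by
      rw [Equiv.Perm.mul_apply, hg, hf, tau2_add, add_assoc]⟩)
  · exact Or.inl ⟨tau2 n w + v, fun p => by
      rw [Equiv.Perm.mul_apply, hg, hf, tau2_add, tau2_tau, add_assoc]⟩
  · exact Or.inr (Or.inl ⟨tau2 n w + v, fun p => by
      rw [Equiv.Perm.mul_apply, hg, hf, tau2_add, tau2_tau2, add_assoc]⟩)

theorem good_one : Good n 1 := Or.inl ⟨0, fun p => by simp⟩

theorem good_pa : Good n (pa n) := Or.inr (Or.inl ⟨0, fun p => by rw [add_zero]; rfl⟩)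

theorem good_pb : Good n (pb n) := Or.inr (Or.inl ⟨(1, 0), fun p => rfl⟩)

theorem good_pa_inv : Good n (pa n)⁻¹ := Or.inr (Or.inr ⟨0, fun p => by rw [add_zero]; rfl⟩)

theorem good_pb_inv : Good n (pb n)⁻¹ :=
  Or.inr (Or.inr ⟨tau2 n (-1, 0), fun p => by
    change tau2 n (p + (-1, 0)) = _
    rw [tau2_add]⟩)

/-- The elements outside the translations have order three, the translations have order `n`. -/
theorem Good.pow {r : ℕ} (hn : n = 3 * r) {f : Equiv.Perm (ZMod n × ZMod n)} (hf : Good n f) :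
    f ^ n = 1 := by
  rcases hf with ⟨v, hf⟩ | ⟨v, hf⟩ | ⟨v, hf⟩
  · have h1 : ∀ (k : ℕ) (p : ZMod n × ZMod n), (f ^ k) p = p + k • v := by
      intro k
      induction k with
      | zero => intro p; simp
      | succ k ih =>
        intro p
        rw [pow_succ', Equiv.Perm.mul_apply, hf, ih, succ_nsmul, add_assoc]
    ext p
    · rw [h1]; simp
    · rw [h1]; simp
  · have h1 : f ^ 3 = 1 := by
      refine Equiv.ext fun p => ?_
      have h2 : (f ^ 3) p = f (f (f p)) := rfl
      rw [h2, hf, hf, hf, tau_add, tau_add, tau_tau, tau_add, tau_tau2]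
      have h3 := tau_sum n v
      calc p + tau n (tau n v) + tau n v + v = p + (v + tau n v + tau2 n v) := by
            rw [tau_tau]; abel
        _ = (1 : Equiv.Perm (ZMod n × ZMod n)) p := by rw [h3]; simp
    calc f ^ n = f ^ (3 * r) := congrArg (f ^ ·) hn
      _ = (f ^ 3) ^ r := pow_mul _ _ _
      _ = 1 := by rw [h1, one_pow]
  · have h1 : f ^ 3 = 1 := by
      refine Equiv.ext fun p => ?_
      have h2 : (f ^ 3) p = f (f (f p)) := rfl
      rw [h2, hf, hf, hf, tau2_add, tau2_add, tau2_tau2, tau2_add, tau2_tau]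
      have h3 := tau_sum n v
      calc p + tau2 n (tau2 n v) + tau2 n v + v = p + (v + tau n v + tau2 n v) := by
            rw [tau2_tau2]; abel
        _ = (1 : Equiv.Perm (ZMod n × ZMod n)) p := by rw [h3]; simp
    calc f ^ n = f ^ (3 * r) := congrArg (f ^ ·) hn
      _ = (f ^ 3) ^ r := pow_mul _ _ _
      _ = 1 := by rw [h1, one_pow]

/-! ### The Heisenberg group over `ℤ/n` -/

/-- The Heisenberg group over `ℤ/n`. -/
@[ext] structure Heis where
  p : ZMod n
  q : ZMod n
  c : ZMod n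

namespace Heis
variable {n}

instance : Mul (Heis n) := ⟨fun g h => ⟨g.p + h.p, g.q + h.q, g.c + h.c + g.p * h.q⟩⟩
instance : One (Heis n) := ⟨⟨0, 0, 0⟩⟩
instance : Inv (Heis n) := ⟨fun g => ⟨-g.p, -g.q, -g.c + g.p * g.q⟩⟩

@[simp] theorem mul_p (g h : Heis n) : (g * h).p = g.p + h.p := rfl
@[simp] theorem mul_q (g h : Heis n) : (g * h).q = g.q + h.q := rfl
@[simp] theorem mul_c (g h : Heis n) : (g * h).c = g.c + h.c + g.p * h.q := rfl
@[simp] theorem one_p : (1 : Heis n).p = 0 := rfl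
@[simp] theorem one_q : (1 : Heis n).q = 0 := rfl
@[simp] theorem one_c : (1 : Heis n).c = 0 := rfl
@[simp] theorem inv_p (g : Heis n) : (g⁻¹).p = -g.p := rfl
@[simp] theorem inv_q (g : Heis n) : (g⁻¹).q = -g.q := rfl
@[simp] theorem inv_c (g : Heis n) : (g⁻¹).c = -g.c + g.p * g.q := rfl

instance : Group (Heis n) := Group.ofLeftAxioms
  (fun a b c => by ext <;> simp <;> ring)
  (fun a => by ext <;> simp)
  (fun a => by ext <;> simp)

theorem pow_formula (g : Heis n) (k : ℕ) :
    (g ^ k).p = k * g.p ∧ (g ^ k).q = k * g.q ∧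
      2 * (g ^ k).c = 2 * (k * g.c) + k * (k - 1) * (g.p * g.q) := by
  induction k with
  | zero => simp
  | succ k ih =>
    obtain ⟨h1, h2, h3⟩ := ih
    rw [pow_succ]
    refine ⟨?_, ?_, ?_⟩
    · rw [mul_p, h1]; push_cast; ring
    · rw [mul_q, h2]; push_cast; ring
    · rw [mul_c, h1]; push_cast; linear_combination h3

theorem pow_n (hn : Odd n) (g : Heis n) : g ^ n = 1 := by
  obtain ⟨h1, h2, h3⟩ := pow_formula g n
  have hu : IsUnit (2 : ZMod n) := by
    have := (ZMod.isUnit_iff_coprime 2 n).2 (Nat.coprime_two_left.2 hn)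
    exact_mod_cast this
  ext
  · rw [h1]; simp
  · rw [h2]; simp
  · rw [one_c]
    apply hu.mul_left_cancel
    rw [h3]; simp

end Heis

end Pool.Agent.MP334071
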