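import Pool.Agent.Lib.MP_334071_al.Groups

/-!
MP_334071_al: for odd `n = 3 r`, `r ≡ 1 (mod 3)`, the free Burnside group `B(2, n)` on `u, v` has
a two generated subgroup, generated by `a b⁻¹` and `a⁻¹ b` with `a = u ^ r`, `b = v ^ r`, which is
not the Burnside product of two cyclic groups.
-/

set_option autoImplicit false

namespace Pool.Agent.MP334071

/-- Free Burnside group of rank two. -/
abbrev B (n : ℕ) : Type :=
  FreeGroup (Fin 2) ⧸ Subgroup.normalClosure (Set.range (fun g : FreeGroup (Fin 2) => g ^ n))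

/-- Burnside product of two cyclic groups. -/
abbrev P (n a b : ℕ) : Type :=
  FreeGroup (Fin 2) ⧸ Subgroup.normalClosure
    (({FreeGroup.of (0 : Fin 2) ^ a, FreeGroup.of (1 : Fin 2) ^ b} : Set (FreeGroup (Fin 2))) ∪
      Set.range (fun g : FreeGroup (Fin 2) => g ^ n))

section span
variable {n : ℕ} {G : Type} [Group G]

theorem map_one_add (f : G → ZMod n × ZMod n) (hf : ∀ g h, f (g * h) = f g + f h) : f 1 = 0 := by
  have h := hf 1 1
  rw [mul_one] at h
  exact left_eq_add.1 h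

theorem map_inv_add (f : G → ZMod n × ZMod n) (hf : ∀ g h, f (g * h) = f g + f h) (g : G) :
    f g⁻¹ = -f g := by
  have h := hf g g⁻¹
  rw [mul_inv_cancel, map_one_add f hf] at h
  exact (neg_eq_of_add_eq_zero_right h.symm).symm

theorem map_pow_add (f : G → ZMod n × ZMod n) (hf : ∀ g h, f (g * h) = f g + f h) (g : G)
    (k : ℕ) : f (g ^ k) = ((k : ZMod n) * (f g).1, (k : ZMod n) * (f g).2) := by
  induction k with
  | zero => rw [pow_zero, map_one_add f hf]; ext <;> simp
  | succ k ih =>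
    rw [pow_succ, hf, ih]
    ext
    · change (k : ZMod n) * (f g).1 + (f g).1 = ((k + 1 : ℕ) : ZMod n) * (f g).1
      push_cast; ring
    · change (k : ZMod n) * (f g).2 + (f g).2 = ((k + 1 : ℕ) : ZMod n) * (f g).2
      push_cast; ring

/-- Values of an additive function on the subgroup generated by two elements. -/
theorem span2 (f : G → ZMod n × ZMod n) (hf : ∀ g h, f (g * h) = f g + f h) {x y g : G}
    (hg : g ∈ Subgroup.closure ({x, y} : Set G)) :
    ∃ s t : ZMod n, (f g).1 = s * (f x).1 + t * (f y).1 ∧ (f g).2 = s * (f x).2 + t * (f y).2 := by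
  induction hg using Subgroup.closure_induction with
  | mem g hg =>
    rcases hg with rfl | hg
    · exact ⟨1, 0, by ring, by ring⟩
    · rw [Set.mem_singleton_iff] at hg
      subst hg
      exact ⟨0, 1, by ring, by ring⟩
  | one => exact ⟨0, 0, by rw [map_one_add f hf]; simp, by rw [map_one_add f hf]; simp⟩
  | mul g h _ _ ihg ihh =>
    obtain ⟨s, t, h1, h2⟩ := ihg
    obtain ⟨s', t', h3, h4⟩ := ihh
    refine ⟨s + s', t + t', ?_, ?_⟩
    · rw [hf]; change (f g).1 + (f h).1 = _; rw [h1, h3]; ring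
    · rw [hf]; change (f g).2 + (f h).2 = _; rw [h2, h4]; ring
  | inv g _ ih =>
    obtain ⟨s, t, h1, h2⟩ := ih
    refine ⟨-s, -t, ?_, ?_⟩
    · rw [map_inv_add f hf]; change -(f g).1 = _; rw [h1]; ring
    · rw [map_inv_add f hf]; change -(f g).2 = _; rw [h2]; ring

/-- The determinant. -/
def det (v w : ZMod n × ZMod n) : ZMod n := v.1 * w.2 - v.2 * w.1

/-- If the values at `g` and `h` have determinant one, the values at the generators have
invertible determinant. -/
theorem det_unit (f : G → ZMod n × ZMod n) (hf : ∀ g h, f (g * h) = f g + f h) {x y g h : G}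
    (hg : g ∈ Subgroup.closure ({x, y} : Set G)) (hh : h ∈ Subgroup.closure ({x, y} : Set G))
    (h1 : det (f g) (f h) = 1) : IsUnit (det (f x) (f y)) := by
  obtain ⟨s, t, h2, h3⟩ := span2 f hf hg
  obtain ⟨s', t', h4, h5⟩ := span2 f hf hh
  refine IsUnit.of_mul_eq_one (s * t' - t * s') ?_
  rw [← h1]
  unfold det
  rw [h2, h3, h4, h5]
  ring

end span

/-! ### The two presentations -/

section pres
variable {n : ℕ}

theorem B_pow (g : B n) : g ^ n = 1 := by
  induction g using QuotientGroup.induction_on with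
  | H w =>
    rw [← QuotientGroup.mk_pow, QuotientGroup.eq_one_iff]
    exact Subgroup.subset_normalClosure ⟨w, rfl⟩

theorem P_gen {a b : ℕ} (g : P n a b) :
    g ∈ Subgroup.closure ({QuotientGroup.mk (FreeGroup.of 0), QuotientGroup.mk (FreeGroup.of 1)} :
      Set (P n a b)) := by
  induction g using QuotientGroup.induction_on with
  | H w =>
    induction w using FreeGroup.induction_on with
    | C1 => exact Subgroup.one_mem _
    | of i =>
      fin_cases i
      · exact Subgroup.subset_closure (Or.inl rfl)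
      · exact Subgroup.subset_closure (Or.inr rfl)
    | inv_of i ih => exact Subgroup.inv_mem _ ih
    | mul v w ihv ihw => exact Subgroup.mul_mem _ ihv ihw

theorem P_rel0 {a b : ℕ} : (QuotientGroup.mk (FreeGroup.of 0) : P n a b) ^ a = 1 := by
  rw [← QuotientGroup.mk_pow, QuotientGroup.eq_one_iff]
  exact Subgroup.subset_normalClosure (Or.inl (Or.inl rfl))

theorem P_rel1 {a b : ℕ} : (QuotientGroup.mk (FreeGroup.of 1) : P n a b) ^ b = 1 := by
  rw [← QuotientGroup.mk_pow, QuotientGroup.eq_one_iff]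
  exact Subgroup.subset_normalClosure (Or.inl (Or.inr rfl))

/-- The homomorphism to the Heisenberg group. -/
theorem exists_heis (hodd : Odd n) {a b : ℕ} (ha : (a : ZMod n) = 0) (hb : (b : ZMod n) = 0) :
    ∃ ψ : P n a b →* Heis n, ψ (QuotientGroup.mk (FreeGroup.of 0)) = ⟨1, 0, 0⟩ ∧
      ψ (QuotientGroup.mk (FreeGroup.of 1)) = ⟨0, 1, 0⟩ := by
  have h2 : IsUnit (2 : ZMod n) := by
    have := (ZMod.isUnit_iff_coprime 2 n).2 (Nat.coprime_two_left.2 hodd)
    exact_mod_cast this
  have h3 : Subgroup.normalClosure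
      (({FreeGroup.of (0 : Fin 2) ^ a, FreeGroup.of (1 : Fin 2) ^ b} : Set (FreeGroup (Fin 2))) ∪
      Set.range (fun g : FreeGroup (Fin 2) => g ^ n)) ≤
      (FreeGroup.lift ![(⟨1, 0, 0⟩ : Heis n), ⟨0, 1, 0⟩]).ker := by
    refine Subgroup.normalClosure_le_normal ?_
    rintro w ((rfl | hw) | ⟨w, rfl⟩)
    · change FreeGroup.lift ![(⟨1, 0, 0⟩ : Heis n), ⟨0, 1, 0⟩] (FreeGroup.of 0 ^ a) = 1
      rw [map_pow, FreeGroup.lift_apply_of]
      obtain ⟨e1, e2, e3⟩ := Heis.pow_formula (⟨1, 0, 0⟩ : Heis n) a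
      change (⟨1, 0, 0⟩ : Heis n) ^ a = 1
      ext
      · rw [e1, ha]; simp
      · rw [e2, ha]; simp
      · apply h2.mul_left_cancel
        rw [e3, ha]; simp
    · rw [Set.mem_singleton_iff] at hw
      subst hw
      change FreeGroup.lift ![(⟨1, 0, 0⟩ : Heis n), ⟨0, 1, 0⟩] (FreeGroup.of 1 ^ b) = 1
      rw [map_pow, FreeGroup.lift_apply_of]
      obtain ⟨e1, e2, e3⟩ := Heis.pow_formula (⟨0, 1, 0⟩ : Heis n) b
      change (⟨0, 1, 0⟩ : Heis n) ^ b = 1
      ext
      · rw [e1, hb]; simp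
      · rw [e2, hb]; simp
      · apply h2.mul_left_cancel
        rw [e3, hb]; simp
    · change FreeGroup.lift ![(⟨1, 0, 0⟩ : Heis n), ⟨0, 1, 0⟩] (w ^ n) = 1
      rw [map_pow]
      exact Heis.pow_n hodd _
  refine ⟨QuotientGroup.lift _ (FreeGroup.lift ![(⟨1, 0, 0⟩ : Heis n), ⟨0, 1, 0⟩]) h3, ?_, ?_⟩
  · rw [QuotientGroup.lift_mk, FreeGroup.lift_apply_of]; rfl
  · rw [QuotientGroup.lift_mk, FreeGroup.lift_apply_of]; rfl

/-- The homomorphism to the affine group. -/
theorem exists_affine {r : ℕ} (hn : n = 3 * r) :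
    ∃ ρ : B n →* Equiv.Perm (ZMod n × ZMod n), ρ (QuotientGroup.mk (FreeGroup.of 0)) = pa n ∧
      ρ (QuotientGroup.mk (FreeGroup.of 1)) = pb n := by
  have hgood : ∀ w : FreeGroup (Fin 2), Good n (FreeGroup.lift ![pa n, pb n] w) := by
    intro w
    induction w using FreeGroup.induction_on with
    | C1 => rw [map_one]; exact good_one n
    | of i =>
      rw [FreeGroup.lift_apply_of]
      fin_cases i
      · exact good_pa n
      · exact good_pb n
    | inv_of i ih =>
      rw [map_inv, FreeGroup.lift_apply_of]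
      fin_cases i
      · exact good_pa_inv n
      · exact good_pb_inv n
    | mul v w ihv ihw => rw [map_mul]; exact ihv.mul n ihw
  have h3 : Subgroup.normalClosure (Set.range (fun g : FreeGroup (Fin 2) => g ^ n)) ≤
      (FreeGroup.lift ![pa n, pb n]).ker := by
    refine Subgroup.normalClosure_le_normal ?_
    rintro w ⟨w, rfl⟩
    change FreeGroup.lift ![pa n, pb n] (w ^ n) = 1
    rw [map_pow]
    exact (hgood w).pow n hn
  refine ⟨QuotientGroup.lift _ (FreeGroup.lift ![pa n, pb n]) h3, ?_, ?_⟩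
  · rw [QuotientGroup.lift_mk, FreeGroup.lift_apply_of]; rfl
  · rw [QuotientGroup.lift_mk, FreeGroup.lift_apply_of]; rfl

end pres

/-! ### Translations -/

section trans
variable (n : ℕ)

/-- Translations. -/
def Trans (f : Equiv.Perm (ZMod n × ZMod n)) : Prop := ∀ p, f p = p + f 0

theorem trans_pab : Trans n (pa n * (pb n)⁻¹) := by
  intro p
  change tau n (tau2 n (p + (-1, 0))) = p + tau n (tau2 n (0 + (-1, 0)))
  rw [tau_tau2, tau_tau2, zero_add]

theorem pab_zero : (pa n * (pb n)⁻¹) 0 = (-1, 0) := by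
  change tau n (tau2 n (0 + (-1, 0))) = (-1, 0)
  rw [tau_tau2, zero_add]

theorem trans_pba : Trans n ((pa n)⁻¹ * pb n) := by
  intro p
  change tau2 n (tau n p + (1, 0)) = p + tau2 n (tau n 0 + (1, 0))
  rw [tau2_add, tau2_tau, tau2_add, tau2_tau, zero_add]

theorem pba_zero : ((pa n)⁻¹ * pb n) 0 = (-1, -1) := by
  change tau2 n (tau n 0 + (1, 0)) = (-1, -1)
  rw [tau2_add, tau2_tau, zero_add]
  ext
  · change (0 : ZMod n) - 1 = -1
    ring
  · rfl

theorem pa_three : pa n ^ 3 = 1 := by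
  refine Equiv.ext fun p => ?_
  change tau n (tau n (tau n p)) = p
  rw [tau_tau, tau2_tau]

theorem pb_three : pb n ^ 3 = 1 := by
  refine Equiv.ext fun p => ?_
  change tau n (tau n (tau n p + (1, 0)) + (1, 0)) + (1, 0) = p
  rw [tau_add, tau_tau, tau2_add, tau2_tau]
  have h := tau_sum n (1, 0)
  calc p + tau2 n (1, 0) + tau n (1, 0) + (1, 0)
      = p + ((1, 0) + tau n (1, 0) + tau2 n (1, 0)) := by abel
    _ = p := by rw [h, add_zero]

end trans

/-! ### The example -/

theorem comm_formula {G : Type} [Group G] (a b : G) (ha3 : a ^ 3 = 1) (hb3 : b ^ 3 = 1) :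
    a * b⁻¹ * (a⁻¹ * b) * (a * b⁻¹)⁻¹ * (a⁻¹ * b)⁻¹ = a * ((a * b)⁻¹) ^ 3 * a⁻¹ := by
  have ha2 : a * a = a⁻¹ := by
    rw [eq_inv_iff_mul_eq_one, ← pow_three', ha3]
  have hb2 : b * b = b⁻¹ := by
    rw [eq_inv_iff_mul_eq_one, ← pow_three', hb3]
  have h3 : a * (a⁻¹ * a⁻¹) = a⁻¹ := by group
  calc a * b⁻¹ * (a⁻¹ * b) * (a * b⁻¹)⁻¹ * (a⁻¹ * b)⁻¹
      = a * b⁻¹ * a⁻¹ * (b * b) * a⁻¹ * b⁻¹ * a := by group
    _ = a * b⁻¹ * a⁻¹ * b⁻¹ * a⁻¹ * b⁻¹ * a⁻¹ * (a * a) := by rw [hb2]; group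
    _ = a * (b⁻¹ * a⁻¹ * (b⁻¹ * a⁻¹ * (b⁻¹ * a⁻¹))) * a⁻¹ := by rw [ha2]; simp only [mul_assoc]
    _ = a * ((a * b)⁻¹) ^ 3 * a⁻¹ := by rw [pow_three, mul_inv_rev]

theorem no_iso {n r k : ℕ} (hodd : Odd n) (hn : n = 3 * r) (hr : r = 3 * k + 1) :
    ∃ x y : B n, ∀ α β : ℕ, IsEmpty (↥(Subgroup.closure ({x, y} : Set (B n))) ≃* P n α β) := by
  obtain ⟨ρ, hρu, hρv⟩ := exists_affine hn
  set u : B n := QuotientGroup.mk (FreeGroup.of 0) with hu
  set v : B n := QuotientGroup.mk (FreeGroup.of 1) with hv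
  set a : B n := u ^ r with ha
  set b : B n := v ^ r with hb
  have ha3 : a ^ 3 = 1 := by
    rw [ha, ← pow_mul, mul_comm, ← hn]; exact B_pow u
  have hb3 : b ^ 3 = 1 := by
    rw [hb, ← pow_mul, mul_comm, ← hn]; exact B_pow v
  have hρa : ρ a = pa n := by
    rw [ha, map_pow, hρu, hr, pow_succ, pow_mul, pa_three, one_pow, one_mul]
  have hρb : ρ b = pb n := by
    rw [hb, map_pow, hρv, hr, pow_succ, pow_mul, pb_three, one_pow, one_mul]
  refine ⟨a * b⁻¹, a⁻¹ * b, fun α β => ⟨fun e => ?_⟩⟩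
  set x : B n := a * b⁻¹ with hx
  set y : B n := a⁻¹ * b with hy
  -- the commutator
  have hcomm : (x * y * x⁻¹ * y⁻¹) ^ r = 1 := by
    rw [hx, hy, comm_formula a b ha3 hb3, conj_pow, ← pow_mul, ← hn, B_pow, mul_one,
      mul_inv_cancel]
  -- the two generators
  set H : Subgroup (B n) := Subgroup.closure ({x, y} : Set (B n)) with hH
  have hxH : x ∈ H := Subgroup.subset_closure (Or.inl rfl)
  have hyH : y ∈ H := Subgroup.subset_closure (Or.inr rfl)
  let x' : H := ⟨x, hxH⟩
  let y' : H := ⟨y, hyH⟩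
  have hgen : ∀ g : H, g ∈ Subgroup.closure ({x', y'} : Set H) := by
    intro g
    have h1 : Subgroup.closure (((↑) : H → B n) ⁻¹' ({x, y} : Set (B n))) = ⊤ :=
      Subgroup.closure_closure_coe_preimage
    have h2 : ((↑) : H → B n) ⁻¹' ({x, y} : Set (B n)) = {x', y'} := by
      ext g
      simp only [Set.mem_preimage, Set.mem_insert_iff, Set.mem_singleton_iff, x', y',
        Subtype.ext_iff]
    rw [h2] at h1
    rw [h1]
    trivial
  have hcomm' : (x' * y' * x'⁻¹ * y'⁻¹) ^ r = 1 := Subtype.ext hcomm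
  -- the translation homomorphism
  have htr : ∀ g ∈ H, Trans n (ρ g) := by
    intro g hg
    rw [hH] at hg
    induction hg using Subgroup.closure_induction with
    | mem g hg =>
      rcases hg with rfl | hg
      · rw [hx, map_mul, map_inv, hρa, hρb]; exact trans_pab n
      · rw [Set.mem_singleton_iff] at hg
        rw [hg, hy, map_mul, map_inv, hρa, hρb]; exact trans_pba n
    | one => rw [map_one]; intro p; simp
    | mul g h _ _ ihg ihh =>
      rw [map_mul]
      intro p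
      rw [Equiv.Perm.mul_apply, Equiv.Perm.mul_apply, ihg (ρ h p), ihh p, ihg (ρ h 0), add_assoc]
    | inv g _ ih =>
      rw [map_inv]
      intro p
      have h0 : ∀ q, ρ g ((ρ g)⁻¹ q) = q := fun q => (ρ g).apply_symm_apply q
      apply (ρ g).injective
      rw [h0, ih (p + (ρ g)⁻¹ 0)]
      have h1 := ih ((ρ g)⁻¹ 0)
      rw [h0] at h1
      rw [add_assoc, ← h1, add_zero]
  let F : H → ZMod n × ZMod n := fun g => ρ (g : B n) 0
  have hF : ∀ g h, F (g * h) = F g + F h := by
    intro g h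
    change ρ ((g : B n) * (h : B n)) 0 = ρ (g : B n) 0 + ρ (h : B n) 0
    rw [map_mul, Equiv.Perm.mul_apply, htr g g.2 (ρ (h : B n) 0), add_comm]
  have hFx : F x' = (-1, 0) := by
    change ρ x 0 = (-1, 0)
    rw [hx, map_mul, map_inv, hρa, hρb]; exact pab_zero n
  have hFy : F y' = (-1, -1) := by
    change ρ y 0 = (-1, -1)
    rw [hy, map_mul, map_inv, hρa, hρb]; exact pba_zero n
  -- first step
  let F' : P n α β → ZMod n × ZMod n := fun g => F (e.symm g)
  have hF' : ∀ g h, F' (g * h) = F' g + F' h := by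
    intro g h
    change F (e.symm (g * h)) = F (e.symm g) + F (e.symm h)
    rw [map_mul, hF]
  have hdet1 : IsUnit (det (F' (QuotientGroup.mk (FreeGroup.of 0)))
      (F' (QuotientGroup.mk (FreeGroup.of 1)))) := by
    refine det_unit F' hF' (P_gen (e x')) (P_gen (e y')) ?_
    change det (F (e.symm (e x'))) (F (e.symm (e y'))) = 1
    rw [MulEquiv.symm_apply_apply, MulEquiv.symm_apply_apply, hFx, hFy]
    unfold det
    ring
  have hα : (α : ZMod n) = 0 := by
    have h1 := map_pow_add F' hF' (QuotientGroup.mk (FreeGroup.of 0)) α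
    rw [P_rel0, map_one_add F' hF'] at h1
    have h2 : (α : ZMod n) * (F' (QuotientGroup.mk (FreeGroup.of 0))).1 = 0 :=
      (congrArg Prod.fst h1).symm
    have h3 : (α : ZMod n) * (F' (QuotientGroup.mk (FreeGroup.of 0))).2 = 0 :=
      (congrArg Prod.snd h1).symm
    have h4 : (α : ZMod n) * det (F' (QuotientGroup.mk (FreeGroup.of 0)))
        (F' (QuotientGroup.mk (FreeGroup.of 1))) = 0 := by
      unfold det
      linear_combination (F' (QuotientGroup.mk (FreeGroup.of 1))).2 * h2 -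
        (F' (QuotientGroup.mk (FreeGroup.of 1))).1 * h3
    exact (hdet1.mul_left_eq_zero).1 h4
  have hβ : (β : ZMod n) = 0 := by
    have h1 := map_pow_add F' hF' (QuotientGroup.mk (FreeGroup.of 1)) β
    rw [P_rel1, map_one_add F' hF'] at h1
    have h2 : (β : ZMod n) * (F' (QuotientGroup.mk (FreeGroup.of 1))).1 = 0 :=
      (congrArg Prod.fst h1).symm
    have h3 : (β : ZMod n) * (F' (QuotientGroup.mk (FreeGroup.of 1))).2 = 0 :=
      (congrArg Prod.snd h1).symm
    have h4 : (β : ZMod n) * det (F' (QuotientGroup.mk (FreeGroup.of 0)))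
        (F' (QuotientGroup.mk (FreeGroup.of 1))) = 0 := by
      unfold det
      linear_combination (F' (QuotientGroup.mk (FreeGroup.of 0))).1 * h3 -
        (F' (QuotientGroup.mk (FreeGroup.of 0))).2 * h2
    exact (hdet1.mul_left_eq_zero).1 h4
  -- second step
  obtain ⟨ψ, hψ0, hψ1⟩ := exists_heis hodd hα hβ
  let K : H → ZMod n × ZMod n := fun g => ((ψ (e g)).p, (ψ (e g)).q)
  have hK : ∀ g h, K (g * h) = K g + K h := by
    intro g h
    change ((ψ (e (g * h))).p, (ψ (e (g * h))).q) = _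
    rw [map_mul, map_mul]
    rfl
  have hdet2 : IsUnit (det (K x') (K y')) := by
    refine det_unit K hK (hgen (e.symm (QuotientGroup.mk (FreeGroup.of 0))))
      (hgen (e.symm (QuotientGroup.mk (FreeGroup.of 1)))) ?_
    have h0 : K (e.symm (QuotientGroup.mk (FreeGroup.of 0))) = (1, 0) := by
      change ((ψ (e (e.symm _))).p, (ψ (e (e.symm _))).q) = _
      rw [MulEquiv.apply_symm_apply, hψ0]
    have h1 : K (e.symm (QuotientGroup.mk (FreeGroup.of 1))) = (0, 1) := by
      change ((ψ (e (e.symm _))).p, (ψ (e (e.symm _))).q) = _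
      rw [MulEquiv.apply_symm_apply, hψ1]
    rw [h0, h1]
    unfold det
    ring
  have hc : (ψ (e (x' * y' * x'⁻¹ * y'⁻¹))) ^ r = 1 := by
    rw [← map_pow, ← map_pow, hcomm', map_one, map_one]
  obtain ⟨-, -, e3⟩ := Heis.pow_formula (ψ (e (x' * y' * x'⁻¹ * y'⁻¹))) r
  rw [hc] at e3
  have hp : (ψ (e (x' * y' * x'⁻¹ * y'⁻¹))).p = 0 := by
    simp only [map_mul, map_inv, Heis.mul_p, Heis.inv_p]
    ring
  have hcc : (ψ (e (x' * y' * x'⁻¹ * y'⁻¹))).c = det (K x') (K y') := by
    simp only [map_mul, map_inv, Heis.mul_p, Heis.inv_p, Heis.inv_q, Heis.mul_c, Heis.inv_c]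
    change _ = (ψ (e x')).p * (ψ (e y')).q - (ψ (e x')).q * (ψ (e y')).p
    ring
  rw [hp, hcc, zero_mul, mul_zero, add_zero, Heis.one_c, mul_zero] at e3
  have h2u : IsUnit (2 : ZMod n) := by
    have := (ZMod.isUnit_iff_coprime 2 n).2 (Nat.coprime_two_left.2 hodd)
    exact_mod_cast this
  have h5 : (r : ZMod n) * det (K x') (K y') = 0 := by
    apply h2u.mul_left_cancel
    rw [← e3, mul_zero]
  have h6 : (r : ZMod n) = 0 := (hdet2.mul_left_eq_zero).1 h5
  rw [ZMod.natCast_eq_zero_iff] at h6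
  have h7 := Nat.le_of_dvd (by omega) h6
  omega

end Pool.Agent.MP334071
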